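import Pool.Agent.Helper45.LinK.GoalsN
import Pool.Agent.Helper9.LinK.AFFK

/-! Packet FI: invariance of the second fundamental form of the fibres. -/

open Complex Metric Set Filter Topology MeasureTheory
open scoped ContDiff ComplexConjugate ComplexOrder

namespace Pool.Agent.Helper67.LinK

open Pool.Agent.Helper95.Lin Pool.Agent.Helper16.Abund Pool.Agent.Helper92.Orb
open Pool.Agent.Helper45.LinK
open Pool.Agent.Helper9.LinK (vertL vertL_apply vert_inj hermi_pos)

section Calc

variable {n m : ℕ} {x : Cn n}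

theorem dz_congr (e : Cn n) {f g : Cn n → ℂ} (h : f =ᶠ[𝓝 x] g) : dz e f x = dz e g x := by
  unfold dz
  rw [h.fderiv_eq]

theorem dz_const (e : Cn n) (c : ℂ) : dz e (fun _ : Cn n => c) x = 0 := by
  unfold dz
  simp

theorem dz_mul (e : Cn n) {f g : Cn n → ℂ} (hf : DifferentiableAt ℝ f x)
    (hg : DifferentiableAt ℝ g x) :
    dz e (fun y => f y * g y) x = dz e f x * g x + f x * dz e g x := by
  unfold dz
  rw [fderiv_fun_mul hf hg]
  simp only [add_apply, smul_apply, smul_eq_mul]
  ring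

theorem dz_sum {ι : Type*} (s : Finset ι) (e : Cn n) {f : ι → Cn n → ℂ}
    (h : ∀ i ∈ s, DifferentiableAt ℝ (f i) x) :
    dz e (fun y => ∑ i ∈ s, f i y) x = ∑ i ∈ s, dz e (f i) x := by
  unfold dz
  rw [fderiv_fun_sum h]
  simp only [sum_apply, Finset.smul_sum, Finset.sum_sub_distrib]

theorem dz_holo (e : Cn n) {f : Cn n → ℂ} (hf : DifferentiableAt ℂ f x) :
    dz e f x = 2 * fderiv ℂ f x e := by
  unfold dz
  rw [hf.fderiv_restrictScalars ℝ]
  simp only [ContinuousLinearMap.coe_restrictScalars', map_smul, smul_eq_mul]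
  linear_combination (-(fderiv ℂ f x) e) * Complex.I_mul_I

theorem dz_conj_holo (e : Cn n) {f : Cn n → ℂ} (hf : DifferentiableAt ℂ f x) :
    dz e (fun y => conj (f y)) x = 0 := by
  have h1 : HasFDerivAt (fun y => conj (f y))
      ((Complex.conjCLE : ℂ →L[ℝ] ℂ).comp ((fderiv ℂ f x).restrictScalars ℝ)) x :=
    (Complex.conjCLE : ℂ →L[ℝ] ℂ).hasFDerivAt.comp x (hf.hasFDerivAt.restrictScalars ℝ)
  unfold dz
  rw [h1.fderiv]
  simp only [ContinuousLinearMap.coe_comp, Function.comp_apply,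
    ContinuousLinearMap.coe_restrictScalars', map_smul, smul_eq_mul, ContinuousLinearEquiv.coe_coe,
    Complex.conjCLE_apply, map_mul, Complex.conj_I]
  linear_combination (conj ((fderiv ℂ f x) e)) * Complex.I_mul_I

theorem dz_comp (e : Cn n) {f : Cn m → ℂ} {T : Cn n → Cn m} (hf : DifferentiableAt ℝ f (T x))
    (hT : DifferentiableAt ℂ T x) :
    dz e (fun y => f (T y)) x = dz (fderiv ℂ T x e) f (T x) := by
  have h1 : HasFDerivAt (fun y => f (T y))
      ((fderiv ℝ f (T x)).comp ((fderiv ℂ T x).restrictScalars ℝ)) x :=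
    hf.hasFDerivAt.comp x (hT.hasFDerivAt.restrictScalars ℝ)
  unfold dz
  rw [h1.fderiv]
  simp only [ContinuousLinearMap.coe_comp, Function.comp_apply,
    ContinuousLinearMap.coe_restrictScalars', map_smul]

end Calc

section Herm

variable {n : ℕ}

theorem hermi_add (A : Matrix (Fin n) (Fin n) ℂ) (u v w : Cn n) :
    hermi A (u + v) w = hermi A u w + hermi A v w := by
  unfold hermi
  rw [← Finset.sum_add_distrib]
  refine Finset.sum_congr rfl fun i _ => ?_
  rw [← Finset.sum_add_distrib]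
  refine Finset.sum_congr rfl fun j _ => ?_
  simp only [Pi.add_apply]
  ring

theorem hermi_smul' (A : Matrix (Fin n) (Fin n) ℂ) (c : ℂ) (u w : Cn n) :
    hermi A (c • u) w = c * hermi A u w := by
  unfold hermi
  rw [Finset.mul_sum]
  refine Finset.sum_congr rfl fun i _ => ?_
  rw [Finset.mul_sum]
  refine Finset.sum_congr rfl fun j _ => ?_
  simp only [Pi.smul_apply, smul_eq_mul]
  ring

end Herm

/-- Transformation of the derivatives of the metric. -/
theorem theta_inv {n : ℕ} {M : Set (Cn n)} {Γ : Type} [Group Γ] {F : Γ → Cn n → Cn n}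
    {H : Cn n → Matrix (Fin n) (Fin n) ℂ} (hK : KAct M F H) (γ : Γ) {x : Cn n} (hx : x ∈ M)
    (ζ ξ η : Cn n) :
    dz ζ (fun y => hermi (H y) ξ η) x =
      dz (fderiv ℂ (F γ) x ζ)
        (fun y => hermi (H y) (fderiv ℂ (F γ) x ξ) (fderiv ℂ (F γ) x η)) (F γ x) +
      2 * hermi (H (F γ x)) (fderiv ℂ (fun y => fderiv ℂ (F γ) y ξ) x ζ)
        (fderiv ℂ (F γ) x η) := by
  have hMn : M ∈ 𝓝 x := hK.act.isOpen.mem_nhds hx
  have hTx : F γ x ∈ M := hK.act.maps γ x hx
  have h1 : (fun y => hermi (H y) ξ η) =ᶠ[𝓝 x]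
      fun y => hermi (H (F γ y)) (fderiv ℂ (F γ) y ξ) (fderiv ℂ (F γ) y η) := by
    filter_upwards [hMn] with y hy
    exact (hK.inv γ y hy ξ η).symm
  have hT : DifferentiableAt ℂ (F γ) x := (hK.act.holo γ).differentiableAt hMn
  have hH : ∀ i j, DifferentiableAt ℝ (fun y => H y i j) (F γ x) := fun i j =>
    ((hK.smooth i j).differentiableOn (by simp)).differentiableAt (hK.act.isOpen.mem_nhds hTx)
  have hHT : ∀ i j, DifferentiableAt ℝ (fun y => H (F γ y) i j) x := fun i j =>
    (hH i j).comp x (hT.restrictScalars ℝ)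
  have hJ : ∀ v : Cn n, DifferentiableAt ℂ (fun y => fderiv ℂ (F γ) y v) x := fun v =>
    ((holo_fderiv hK.act.isOpen (hK.act.holo γ)).differentiableAt hMn).clm_apply
      (differentiableAt_const v)
  have hJi : ∀ (v : Cn n) (i : Fin n), DifferentiableAt ℂ (fun y => fderiv ℂ (F γ) y v i) x :=
    fun v i => (differentiableAt_pi.1 (hJ v)) i
  have hJc : ∀ (v : Cn n) (i : Fin n),
      fderiv ℂ (fun y => fderiv ℂ (F γ) y v i) x ζ =
        (fderiv ℂ (fun y => fderiv ℂ (F γ) y v) x ζ) i := by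
    intro v i
    have h2 := (hasFDerivAt_pi'.1 (hJ v).hasFDerivAt) i
    rw [h2.fderiv]
    rfl
  have hcj : ∀ (v : Cn n) (i : Fin n),
      DifferentiableAt ℝ (fun y => conj (fderiv ℂ (F γ) y v i)) x := fun v i =>
    (Complex.conjCLE : ℂ →L[ℝ] ℂ).differentiableAt.comp x ((hJi v i).restrictScalars ℝ)
  have hterm : ∀ i j, dz ζ (fun y => H (F γ y) i j * fderiv ℂ (F γ) y ξ i *
      conj (fderiv ℂ (F γ) y η j)) x =
      dz (fderiv ℂ (F γ) x ζ) (fun y => H y i j * fderiv ℂ (F γ) x ξ i *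
        conj (fderiv ℂ (F γ) x η j)) (F γ x) +
      2 * (H (F γ x) i j * (fderiv ℂ (fun y => fderiv ℂ (F γ) y ξ) x ζ) i *
        conj (fderiv ℂ (F γ) x η j)) := by
    intro i j
    rw [dz_mul ζ ((hHT i j).fun_mul ((hJi ξ i).restrictScalars ℝ)) (hcj η j),
      dz_conj_holo ζ (hJi η j), dz_mul ζ (hHT i j) ((hJi ξ i).restrictScalars ℝ),
      dz_holo ζ (hJi ξ i), hJc ξ i, dz_comp ζ (hH i j) hT,
      dz_mul _ ((hH i j).fun_mul (differentiableAt_const _)) (differentiableAt_const _),
      dz_mul _ (hH i j) (differentiableAt_const _), dz_const, dz_const]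
    ring
  rw [dz_congr ζ h1]
  unfold hermi
  rw [dz_sum, dz_sum, Finset.mul_sum, ← Finset.sum_add_distrib]
  · refine Finset.sum_congr rfl fun i _ => ?_
    rw [dz_sum, dz_sum, Finset.mul_sum, ← Finset.sum_add_distrib]
    · exact Finset.sum_congr rfl fun j _ => hterm i j
    · intro j _
      exact ((hH i j).fun_mul (differentiableAt_const _)).fun_mul (differentiableAt_const _)
    · intro j _
      exact ((hHT i j).fun_mul ((hJi ξ i).restrictScalars ℝ)).fun_mul (hcj η j)
  · intro i _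
    exact DifferentiableAt.fun_sum fun j _ =>
      ((hH i j).fun_mul (differentiableAt_const _)).fun_mul (differentiableAt_const _)
  · intro i _
    exact DifferentiableAt.fun_sum fun j _ =>
      ((hHT i j).fun_mul ((hJi ξ i).restrictScalars ℝ)).fun_mul (hcj η j)

section Vert

variable {b k : ℕ}

/-- `base` as a continuous linear map. -/
noncomputable def baseL : Cn (b + k) →L[ℂ] Cn b :=
  LinearMap.toContinuousLinearMap
    { toFun := fun u => base u
      map_add' := by intro u v; rfl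
      map_smul' := by intro c v; rfl }

theorem baseL_apply (u : Cn (b + k)) : (baseL u : Cn b) = base u := rfl

theorem base_vert (u : Cn k) : base (vert u : Cn (b + k)) = 0 := by
  funext i
  simp [base, vert, Fin.append_left]

theorem fib_vert (u : Cn k) : fib (vert u : Cn (b + k)) = u := by
  funext i
  simp [fib, vert, Fin.append_right]

theorem vert_fib {v : Cn (b + k)} (h : base v = 0) : vert (fib v) = v := by
  funext i
  refine Fin.addCases (fun i => ?_) (fun i => ?_) i
  · have := congrFun h i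
    simp only [base] at this
    simp only [vert, Fin.append_left]
    exact this.symm
  · simp [vert, fib, Fin.append_right]

variable {D : Set (Cn b)} {T : Cn (b + k) → Cn (b + k)} {g : Cn b → Cn b}

theorem base_fderiv_vert (hbas : ∀ v ∈ tubeK D k, base (T v) = g (base v))
    {x : Cn (b + k)} (hx : x ∈ tubeK D k) (hT : DifferentiableAt ℂ T x) (u : Cn k) :
    base (fderiv ℂ T x (vert u)) = 0 := by
  have h0 : HasFDerivAt (fun w : Cn k => x + vertL w) (vertL : Cn k →L[ℂ] Cn (b + k)) 0 :=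
    vertL.hasFDerivAt.const_add x
  have hx0 : x + vertL (0 : Cn k) = x := by simp
  have hT' : HasFDerivAt T (fderiv ℂ T x) (x + vertL (0 : Cn k)) := by
    rw [hx0]; exact hT.hasFDerivAt
  have h1 : HasFDerivAt (fun w : Cn k => (baseL (T (x + vertL w)) : Cn b))
      ((baseL : Cn (b + k) →L[ℂ] Cn b).comp ((fderiv ℂ T x).comp vertL)) 0 :=
    baseL.hasFDerivAt.comp 0 (hT'.comp 0 h0)
  have hb : ∀ w : Cn k, base (x + vertL w) = base x := by
    intro w
    rw [← baseL_apply, map_add, baseL_apply, baseL_apply, vertL_apply, base_vert, add_zero]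
  have h2 : (fun w : Cn k => (baseL (T (x + vertL w)) : Cn b)) = fun _ => g (base x) := by
    funext w
    rw [baseL_apply, hbas, hb w]
    change base (x + vertL w) ∈ D
    rw [hb w]
    exact hx
  rw [h2] at h1
  have h3 := h1.unique (hasFDerivAt_const (g (base x)) (0 : Cn k))
  have h4 := congrArg (fun L : Cn k →L[ℂ] Cn b => L u) h3
  simpa [vertL_apply, baseL_apply] using h4

theorem base_fderiv2_vert (hD : IsOpen (tubeK D k)) (hT : DifferentiableOn ℂ T (tubeK D k))
    (hbas : ∀ v ∈ tubeK D k, base (T v) = g (base v))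
    {x : Cn (b + k)} (hx : x ∈ tubeK D k) (u : Cn k) (ζ : Cn (b + k)) :
    base (fderiv ℂ (fun y => fderiv ℂ T y (vert u)) x ζ) = 0 := by
  have hJ : DifferentiableAt ℂ (fun y => fderiv ℂ T y (vert u)) x :=
    ((holo_fderiv hD hT).differentiableAt (hD.mem_nhds hx)).clm_apply
      (differentiableAt_const _)
  have h1 : HasFDerivAt (fun y => (baseL (fderiv ℂ T y (vert u)) : Cn b))
      ((baseL : Cn (b + k) →L[ℂ] Cn b).comp (fderiv ℂ (fun y => fderiv ℂ T y (vert u)) x)) x :=
    baseL.hasFDerivAt.comp x hJ.hasFDerivAt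
  have h2 : (fun y => (baseL (fderiv ℂ T y (vert u)) : Cn b)) =ᶠ[𝓝 x] fun _ => 0 := by
    filter_upwards [hD.mem_nhds hx] with y hy
    rw [baseL_apply]
    exact base_fderiv_vert hbas hy (hT.differentiableAt (hD.mem_nhds hy)) u
  have h3 := (h1.congr_of_eventuallyEq h2.symm).unique (hasFDerivAt_const (0 : Cn b) x)
  have h4 := congrArg (fun L : Cn (b + k) →L[ℂ] Cn b => L ζ) h3
  simpa [baseL_apply] using h4

end Vert

theorem FI : S_FI := by
  intro b k D Γ _ F H g N hK hbas hN γ v hv u u' η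
  have hMo : IsOpen (tubeK D k) := hK.act.isOpen
  have hMn : tubeK D k ∈ 𝓝 v := hMo.mem_nhds hv
  have hTv : F γ v ∈ tubeK D k := hK.act.maps γ v hv
  have hT : DifferentiableAt ℂ (F γ) v := (hK.act.holo γ).differentiableAt hMn
  have hbv : ∀ y : Cn k, base (fderiv ℂ (F γ) v (vert y)) = 0 := fun y =>
    base_fderiv_vert (hbas γ) hv hT y
  have hJv : ∀ y : Cn k, vert (fib (fderiv ℂ (F γ) v (vert y))) = fderiv ℂ (F γ) v (vert y) :=
    fun y => vert_fib (hbv y)
  -- surjectivity
  have hsurj : ∀ y : Cn k, ∃ y' : Cn k, fderiv ℂ (F γ) v (vert y') = vert y := by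
    intro y
    have hT' : DifferentiableAt ℂ (F γ⁻¹) (F γ v) :=
      (hK.act.holo γ⁻¹).differentiableAt (hMo.mem_nhds hTv)
    have hb' : base (fderiv ℂ (F γ⁻¹) (F γ v) (vert y)) = 0 :=
      base_fderiv_vert (hbas γ⁻¹) hTv hT' y
    refine ⟨fib (fderiv ℂ (F γ⁻¹) (F γ v) (vert y)), ?_⟩
    rw [vert_fib hb']
    have hx : F γ⁻¹ (F γ v) = v := hK.act.inv_left γ hv
    have h1 : HasFDerivAt (fun x => F γ (F γ⁻¹ x))
        ((fderiv ℂ (F γ) v).comp (fderiv ℂ (F γ⁻¹) (F γ v))) (F γ v) := by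
      have h2 : HasFDerivAt (F γ) (fderiv ℂ (F γ) v) (F γ⁻¹ (F γ v)) := by
        rw [hx]; exact hT.hasFDerivAt
      exact h2.comp _ hT'.hasFDerivAt
    have h3 : (fun x => F γ (F γ⁻¹ x)) =ᶠ[𝓝 (F γ v)] id := by
      filter_upwards [hMo.mem_nhds hTv] with x hx'
      exact hK.act.inv_right γ hx'
    have h4 := (h1.congr_of_eventuallyEq h3.symm).unique (hasFDerivAt_id (F γ v))
    have h5 := congrArg (fun L : Cn (b + k) →L[ℂ] Cn (b + k) => L (vert y)) h4
    simpa using h5
  set J := fderiv ℂ (F γ) v with hJdef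
  set Q := fderiv ℂ (fun y => fderiv ℂ (F γ) y (vert u')) v (vert u) with hQdef
  have hQ0 : base Q = 0 := base_fderiv2_vert hMo (hK.act.holo γ) (hbas γ) hv u' (vert u)
  have hQv : vert (fib Q) = Q := vert_fib hQ0
  have hth : ∀ ξ : Cn (b + k), dz (vert u) (fun y => hermi (H y) (vert u') ξ) v =
      dz (J (vert u)) (fun y => hermi (H y) (J (vert u')) (J ξ)) (F γ v) +
        2 * hermi (H (F γ v)) Q (J ξ) := fun ξ => theta_inv hK γ hv (vert u) (vert u') ξ
  set Lu := fib (J (vert u)) with hLu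
  set Lu' := fib (J (vert u')) with hLu'
  have eLu : vert Lu = J (vert u) := hJv u
  have eLu' : vert Lu' = J (vert u') := hJv u'
  -- the identity for the Christoffel forms
  have key : J (vert (N v u u')) = vert (N (F γ v) Lu Lu') + (2 : ℂ) • Q := by
    set W : Cn (b + k) := J (vert (N v u u')) + (-1 : ℂ) • (vert (N (F γ v) Lu Lu') + (2 : ℂ) • Q)
      with hW
    have hW0 : base W = 0 := by
      rw [hW, ← baseL_apply, map_add, map_smul, map_add, map_smul, baseL_apply, baseL_apply,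
        baseL_apply, hQ0, base_vert, hbv]
      simp
    have hor : ∀ y : Cn k, hermi (H (F γ v)) W (vert y) = 0 := by
      intro y
      obtain ⟨y', hy'⟩ := hsurj y
      have h1 := hN.eq v hv u u' y'
      have h2 := hN.eq (F γ v) hTv Lu Lu' y
      rw [hth (vert y'), ← eLu, ← eLu', hy'] at h1
      have h3 := hK.inv γ v hv (vert (N v u u')) (vert y')
      rw [← hJdef, hy'] at h3
      rw [hW, hermi_add, hermi_smul', hermi_add, hermi_smul', h3, h1, h2]
      ring
    by_contra hne
    have hWne : W ≠ 0 := by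
      intro h0
      apply hne
      have h1 : J (vert (N v u u')) = W + (vert (N (F γ v) Lu Lu') + (2 : ℂ) • Q) := by
        rw [hW]; module
      rw [h1, h0, zero_add]
    have h1 := hermi_pos (hK.posDef _ hTv) hWne
    have h2 := hor (fib W)
    rw [vert_fib hW0] at h2
    rw [h2] at h1
    simp at h1
  have h3 := hK.inv γ v hv (vert (N v u u')) η
  rw [← hJdef] at h3
  unfold sff
  rw [hth η, ← h3, key, hermi_add, hermi_smul', eLu, eLu']
  ring

end Pool.Agent.Helper67.LinK
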